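import Mathlib
import Pool.Agent.H26.BL9

set_option autoImplicit false

open Filter Topology

namespace Pool.Agent.Results.MP_100021_an.Proof

open H26 BL0 BL1 BL6 BL7 BL9

def IsAt {X : BL} (a : X) : Prop := 0 < a ∧ ∀ x, 0 ≤ x → x ≤ a → ∃ c : ℝ, 0 ≤ c ∧ x = c • a

def OrdCont {X : BL} (f : X →L[ℝ] ℝ) : Prop :=
  ∀ (ι : Type) [Preorder ι] [IsDirectedOrder ι] [Nonempty ι] (x : ι → X), Antitone x →
    IsGLB (Set.range x) 0 → Tendsto (fun i => f (x i)) atTop (𝓝 0)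

lemma local_small {X : BL} {f : X →L[ℝ] ℝ} (hf : OrdCont f) (h : ∀ a, IsAt a → f a = 0)
    {φ : X →L[ℝ] real} (hφ : IsHom φ) {x : X} (hx : 0 ≤ x) {η : ℝ} (hη : 0 < η) :
    ∃ y, 0 ≤ y ∧ y ≤ x ∧ φ y = φ x ∧ ∀ z, 0 ≤ z → z ≤ y → f z ≤ η := by
  let N : Set X := {y | 0 ≤ y ∧ y ≤ x ∧ φ y = φ x}
  have hN : ∀ y ∈ N, ∀ z ∈ N, y ⊓ z ∈ N := fun y hy z hz =>
    ⟨le_inf hy.1 hz.1, inf_le_left.trans hy.2.1, by rw [IsHom.inf hφ, hy.2.2, hz.2.2, inf_idem]⟩
  by_cases h0 : IsGLB N 0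
  · let R : Set ℝ := {r | ∃ z, 0 ≤ z ∧ z ≤ x ∧ f z = r}
    have hR : BddAbove R := ⟨‖f‖ * ‖x‖, by
      rintro _ ⟨z, z0, z1, rfl⟩
      exact (le_abs_self _).trans (f.le_opNorm_of_le (norm_le_norm_of_abs_le_abs (by
        rwa [abs_of_nonneg z0, abs_of_nonneg hx])))⟩
    obtain ⟨_, ⟨v, v0, v1, rfl⟩, hv⟩ := exists_lt_of_lt_csSup (⟨_, x, hx, le_rfl, rfl⟩ : R.Nonempty)
      (sub_lt_self (sSup R) (half_pos hη))
    haveI : Nonempty Nᵒᵈ := ⟨⟨x, hx, le_rfl, rfl⟩⟩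
    haveI : IsDirectedOrder Nᵒᵈ := ⟨fun y z => ⟨⟨_, hN _ y.2 _ z.2⟩, inf_le_left (α := X),
      inf_le_right (α := X)⟩⟩
    obtain ⟨y, hy⟩ := ((hf Nᵒᵈ (fun y => y.1 ⊓ v) (fun y z h => inf_le_inf_right v h)
      ⟨by rintro _ ⟨y, rfl⟩; exact le_inf y.2.1 v0, fun b hb => h0.2 fun y hy =>
        (hb ⟨⟨y, hy⟩, rfl⟩).trans inf_le_left⟩).eventually (gt_mem_nhds (half_pos hη))).exists
    refine ⟨y.1, y.2.1, y.2.2.1, y.2.2.2, fun z z0 z1 => ?_⟩
    have := le_csSup hR ⟨v - y.1 ⊓ v + z, add_nonneg (sub_nonneg.2 inf_le_right) z0,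
      (add_le_add_right z1 _).trans (by
        rw [sub_add_eq_add_sub, add_comm, ← inf_add_sup, add_sub_cancel_left]
        exact sup_le y.2.2.1 v1), rfl⟩
    rw [map_add, map_sub] at this
    linarith
  obtain ⟨b, hb, hb'⟩ : ∃ b ∈ lowerBounds N, ¬ b ≤ 0 := by
    by_contra! h
    exact h0 ⟨fun y hy => hy.1, h⟩
  have a0 := posPart_nonneg b
  have a1 : ∀ y ∈ N, b⁺ ≤ y := fun y hy => sup_le (hb hy) hy.1
  have a2 : b⁺ ≠ 0 := fun h => hb' (posPart_eq_zero.1 h)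
  generalize b⁺ = a at a0 a1 a2
  have a3 : ∀ d, 0 ≤ d → d ≤ a → φ d = 0 → d = 0 := fun d d0 d1 d2 => by
    have h1 : ∀ n : ℕ, d ≤ (1 / (n + 1 : ℝ)) • x := fun n => by
      have hn : (0 : ℝ) < n + 1 := by positivity
      have h2 := d1.trans (a1 (x - (n + 1 : ℝ) • d)⁺ ⟨posPart_nonneg _, sup_le (sub_le_self _
        (smul_nonneg hn.le d0)) hx, by
          rw [IsHom.posPart hφ, map_sub, map_smul, d2, smul_zero, sub_zero,
            posPart_eq_self.2 (IsHom.nonneg hφ hx)]⟩)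
      have h3 := smul_disj d0 (negPart_nonneg (x - (n + 1 : ℝ) • d)) (le_antisymm ((inf_le_inf_right _
        h2).trans_eq (posPart_inf_negPart_eq_zero _)) (le_inf d0 (negPart_nonneg _))) hn.le zero_le_one
      rw [one_smul, inf_eq_right.2 (show (x - (n + 1 : ℝ) • d)⁻ ≤ _ from sup_le (by
        rw [neg_sub]; exact sub_le_self _ hx) (smul_nonneg hn.le d0)), negPart_eq_zero, sub_nonneg] at h3
      rw [one_div]
      exact (inv_smul_smul₀ hn.ne' d).ge.trans (smul_le_smul_of_nonneg_left h3 (inv_pos.2 hn).le)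
    exact le_antisymm (ge_of_tendsto' (by
      simpa using (tendsto_one_div_add_atTop_nhds_zero_nat (𝕜 := ℝ)).smul_const x) h1) d0
  have a4 : (0 : ℝ) < φ a := (IsHom.nonneg hφ a0).lt_of_ne' fun h => a2 (a3 a a0 le_rfl h)
  have a5 : IsAt a := ⟨a0.lt_of_ne' a2, fun d d0 d1 => by
    have h1 : (0 : ℝ) ≤ φ d / φ a := div_nonneg (IsHom.nonneg hφ d0) a4.le
    have h2 : (φ d / φ a) • a ≤ a := by
      simpa [sub_smul] using smul_nonneg (sub_nonneg.2 ((div_le_one a4).2 (IsHom.mono hφ d1))) a0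
    refine ⟨_, h1, sub_eq_zero.1 (norm_eq_zero.1 ?_)⟩
    rw [← norm_abs_eq_norm, a3 _ (abs_nonneg _) (abs_le'.2 ⟨(sub_le_self _ (smul_nonneg h1 a0)).trans d1,
      by rw [neg_sub]; exact (sub_le_self _ d0).trans h2⟩) (by
        rw [hφ, map_sub, map_smul, smul_eq_mul, div_mul_cancel₀ _ a4.ne', sub_self, abs_zero]),
      norm_zero]⟩
  have a6 : (0 : ℝ) < φ x / φ a := div_pos (a4.trans_le (IsHom.mono hφ (a1 x ⟨hx, le_rfl, rfl⟩))) a4
  refine ⟨x ⊓ (φ x / φ a) • a, le_inf hx (smul_nonneg a6.le a0), inf_le_left, by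
    rw [IsHom.inf hφ, map_smul, smul_eq_mul, div_mul_cancel₀ _ a4.ne', inf_idem], fun z z0 z1 => ?_⟩
  obtain ⟨c, -, hc⟩ := a5.2 ((φ x / φ a)⁻¹ • z) (smul_nonneg (inv_pos.2 a6).le z0)
    ((smul_le_smul_of_nonneg_left (z1.trans inf_le_right) (inv_pos.2 a6).le).trans_eq
      (inv_smul_smul₀ a6.ne' a))
  rw [← smul_inv_smul₀ a6.ne' z, hc, map_smul, map_smul, h a a5, smul_zero, smul_zero]
  exact hη.le

lemma le_zero {X : BL} (hX : Proj X) {f : X →L[ℝ] ℝ} (hf : OrdCont f) (h : ∀ a, IsAt a → f a = 0)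
    {x : X} (hx : 0 ≤ x) : f x ≤ 0 := by
  classical
  let A := {a : X // ‖a‖ ≤ 1}
  haveI : Nonempty A := ⟨⟨0, by simp⟩⟩
  obtain ⟨F, δ, P, ψ, h1, h2, h3, h4, h5, h6, h7⟩ := exists_FBL A
  obtain ⟨Q, q1, q2, q3⟩ := h3 X Subtype.val Subtype.property
  obtain ⟨σ, s1, s2, -⟩ := hX F X Q (isQuot_of q1 q2 fun z r hr => by
    have h0 := (norm_nonneg z).trans_lt hr
    refine ⟨r • δ ⟨r⁻¹ • z, by
      rw [norm_smul, norm_inv, Real.norm_of_nonneg h0.le, inv_mul_le_one₀ h0]; exact hr.le⟩, by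
      rw [map_smul, q3, smul_inv_smul₀ h0.ne'], ?_⟩
    exact (norm_smul _ _).trans_le ((mul_le_of_le_one_right (norm_nonneg r) (h2 _)).trans_eq
      (Real.norm_of_nonneg h0.le))) (.id ℝ X) (fun _ => rfl) 1 one_pos
  have s3 : ∀ x, Q (σ x) = x := fun x => congrArg (· x) s2
  choose y y0 y1 y2 y3 using fun (ξ : A → ℚ) (m : ℕ) => local_small hf h (IsHom.comp (h5 ξ).1 s1) hx
    (Nat.one_div_pos_of_nat (n := m))
  choose e he using h6
  obtain ⟨D, d1, d2, d3⟩ := exists_closed (fun (i : ℚ ⊕ ℕ × ℕ) (p q : A ⊕ (A → ℚ)) =>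
    i.elim (fun r => p.elim (fun a => q.elim .inl fun ξ => .inr (Function.update ξ a r)) .inr)
      fun n => p.elim (fun a : A => .inl (e (σ a) n.2)) fun ξ => .inl (e (σ (y ξ n.1)) n.2))
    ((Set.countable_range fun n => Sum.inl (e (σ x) n)).insert (.inr 0))
  let S : Set A := Sum.inl ⁻¹' D
  have e1 : P S (σ x) = σ x := he _ _ (by
    rintro _ ⟨n, rfl⟩; exact d2 (Set.mem_insert_of_mem _ ⟨n, rfl⟩))
  have e2 : ∀ a ∈ S, P S (σ a) = σ a := fun a ha => he _ _ (by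
    rintro _ ⟨n, rfl⟩; exact d3 (.inr (0, n)) _ ha _ ha)
  have e3 : ∀ ξ m, .inr ξ ∈ D → P S (σ (y ξ m)) = σ (y ξ m) := fun ξ m hξ => he _ _ (by
    rintro _ ⟨n, rfl⟩; exact d3 (.inr (m, n)) _ hξ _ hξ)
  have e4 : ∀ (B : Finset A) (ξ : A → ℚ), ↑B ⊆ S → (∀ a ∉ B, ξ a = 0) → .inr ξ ∈ D := fun B => by
    induction B using Finset.induction_on with
    | empty => exact fun ξ _ h => (funext fun a => h a (by simp) : ξ = 0) ▸ d2 (Set.mem_insert _ _)
    | insert a B ha ih =>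
      intro ξ h1 h2
      have := d3 (.inl (ξ a)) _ (h1 (Finset.mem_insert_self a B)) _ (ih (Function.update ξ a 0)
        (fun b hb => h1 (Finset.mem_insert_of_mem hb)) fun b hb => by
          rcases eq_or_ne b a with rfl | h
          exacts [Function.update_self .., (Function.update_of_ne h ..).trans (h2 b (by simp [h, hb]))])
      simpa using this
  obtain ⟨ξ, hξ⟩ := (d1.preimage Sum.inr_injective).exists_eq_range ⟨0, d2 (Set.mem_insert _ _)⟩
  refine le_of_forall_pos_le_add fun ε hε => ?_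
  choose m hm using fun i : ℕ => exists_nat_one_div_lt (show 0 < ε / 2 / 2 ^ i by positivity)
  let s : ℕ → X := fun n => Nat.rec 0 (fun i r => r ⊔ y (ξ i) (m i)) n
  have t1 : ∀ n, 0 ≤ s n ∧ s n ≤ x ∧ P S (σ (s n)) = σ (s n) ∧
      f (s n) ≤ ∑ i ∈ Finset.range n, ε / 2 / 2 ^ i := fun n => by
    induction n with
    | zero => exact ⟨le_rfl, hx, by simp [s], by simp [s]⟩
    | succ n ih =>
      change 0 ≤ s n ⊔ _ ∧ s n ⊔ _ ≤ x ∧ P S (σ (s n ⊔ _)) = σ (s n ⊔ _) ∧ f (s n ⊔ _) ≤ _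
      refine ⟨le_sup_of_le_left ih.1, sup_le ih.2.1 (y1 _ _), by
        rw [IsHom.sup s1, IsHom.sup (h4 S).1, ih.2.2.1, e3 _ _ (hξ.ge ⟨n, rfl⟩)], ?_⟩
      rw [Finset.sum_range_succ, ← add_sub_cancel (s n) (s n ⊔ _), map_add]
      exact add_le_add ih.2.2.2 ((y3 _ _ _ (sub_nonneg.2 le_sup_left) (sub_le_iff_le_add.2 (sup_le
        (le_add_of_nonneg_left (y0 _ _)) (le_add_of_nonneg_right ih.1)))).trans (hm n).le)
  have t2 := hf ℕ (fun n => x - s n) (antitone_nat_of_succ_le fun n => sub_le_sub_left le_sup_left _)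
    ⟨by rintro _ ⟨n, rfl⟩; exact sub_nonneg.2 (t1 n).2.1, fun b hb => posPart_eq_zero.1 (by
      have w0 := posPart_nonneg b
      have w1 : ∀ n, b⁺ ≤ x - s n := fun n => sup_le (hb ⟨n, rfl⟩) (sub_nonneg.2 (t1 n).2.1)
      generalize b⁺ = w at w0 w1
      by_contra hw
      obtain ⟨-, ζ, -, -, hζ⟩ := h7 Set.univ (σ w) (congrArg (· (σ w)) (hom_ext (h4 _).1
        (T := .id ℝ F) (fun _ => rfl) h1 fun a => by simp [(h4 _).2]))
        fun h => hw (by rw [← s3 w, h, map_zero])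
      let g := (ψ ζ).comp σ
      have g1 : IsHom g := IsHom.comp (h5 ζ).1 s1
      have g2 : (0 : ℝ) < g x := ((IsHom.nonneg g1 w0).lt_of_ne' hζ).trans_le
        (IsHom.mono g1 (by simpa [s] using w1 0))
      let r := 1 + ‖g‖ * ‖(g x)⁻¹ • σ x‖
      have r0 : 0 < r := by positivity
      obtain ⟨U, u1, -, u2⟩ := h3 F (fun a => r⁻¹ • if a ∈ S then δ a else g a • (g x)⁻¹ • σ x)
        fun a => by
          rw [norm_smul, norm_inv, Real.norm_of_nonneg r0.le, inv_mul_le_one₀ r0]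
          split_ifs
          · exact (h2 a).trans (le_add_of_nonneg_right (by positivity))
          · rw [norm_smul]
            exact le_add_of_nonneg_of_le zero_le_one (mul_le_mul_of_nonneg_right
              ((g.le_opNorm_of_le a.2).trans_eq (mul_one _)) (norm_nonneg _))
      have u3 : IsHom (r • U) := fun x => by simp [u1 x, abs_smul', abs_of_pos r0]
      have u4 : ∀ a, (r • U) (δ a) = if a ∈ S then δ a else g a • (g x)⁻¹ • σ x := fun a => by
        simp [u2, r0.ne']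
      generalize r • U = V at u3 u4
      have v1 := hom_ext (IsHom.comp u3 (h4 S).1) (h4 S).1 h1 fun a => by
        by_cases ha : a ∈ S <;> simp [(h4 S).2, u4, ha]
      have v2 := hom_ext (IsHom.comp (h4 S).1 u3) u3 h1 fun a => by
        by_cases ha : a ∈ S <;> simp [(h4 S).2, u4, ha, e1]
      have v3 := hom_ext (IsHom.comp (h4 S).1 (IsHom.comp s1 (IsHom.comp q1 (h4 S).1)))
        (IsHom.comp s1 (IsHom.comp q1 (h4 S).1)) h1 fun a => by
          by_cases ha : a ∈ S <;> simp [(h4 S).2, ha, q3, e2]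
      have v4 := hom_ext (IsHom.comp g1 (IsHom.comp q1 u3)) (IsHom.comp g1 q1) h1 fun a => by
        by_cases ha : a ∈ S <;> simp [u4, ha, q3, s3, g2.ne']
      have v5 : P S (V (σ w)) = V (σ w) := congrArg (· (σ w)) v2
      have v6 : P S (σ (Q (V (σ w)))) = σ (Q (V (σ w))) := by
        have := congrArg (· (V (σ w))) v3
        simpa only [ContinuousLinearMap.comp_apply, v5] using this
      have v7 : g (Q (V (σ w))) = g w := (congrArg (· (σ w)) v4).trans (congrArg g (s3 w))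
      obtain ⟨B, ζ', b1, b2, b3⟩ := h7 S _ v6 fun h => hζ (v7.symm.trans ((congrArg (ψ ζ) h).trans
        (map_zero _)))
      obtain ⟨i, rfl⟩ := hξ.le (e4 B ζ' b1 b2)
      have v8 : Q (V (σ w)) ≤ x - y (ξ i) (m i) := by
        refine (IsHom.mono (IsHom.comp q1 (IsHom.comp u3 s1)) (w1 (i + 1))).trans ?_
        have : V (σ (x - s (i + 1))) = σ (x - s (i + 1)) := by
          have := congrArg (· (σ (x - s (i + 1)))) v1
          simpa only [ContinuousLinearMap.comp_apply, map_sub σ, map_sub (P S), e1,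
            (t1 _).2.2.1] using this
        rw [ContinuousLinearMap.comp_apply, ContinuousLinearMap.comp_apply, this, s3]
        exact sub_le_sub_left le_sup_right _
      have v9 := IsHom.mono (IsHom.comp (h5 (ξ i)).1 s1) v8
      rw [map_sub, y2, sub_self] at v9
      exact b3 (le_antisymm v9 (IsHom.nonneg (IsHom.comp (h5 (ξ i)).1 (IsHom.comp s1 (IsHom.comp q1
        (IsHom.comp u3 s1)))) w0)))⟩
  refine ge_of_tendsto' (t2.add_const ε) fun n => ?_
  rw [map_sub]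
  linarith [(t1 n).2.2.2, (summable_geometric_two' ε).sum_le_tsum (Finset.range n)
    (fun _ _ => by positivity), tsum_geometric_two' ε]

theorem result (X : BL) (hX : Proj X) (f : X →L[ℝ] ℝ) (hf : OrdCont f)
    (h : ∀ a, IsAt a → f a = 0) : f = 0 := by
  have h1 : ∀ x, 0 ≤ x → f x = 0 := fun x hx => (le_zero hX hf h hx).antisymm (neg_nonpos.1
    (le_zero hX (f := -f) (fun ι _ _ _ x h1 h2 => by simpa using (hf ι x h1 h2).neg)
      (fun a ha => neg_eq_zero.2 (h a ha)) hx))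
  ext x
  rw [← posPart_sub_negPart x, map_sub, h1 _ (posPart_nonneg x), h1 _ (negPart_nonneg x), sub_self]
  rfl

end Pool.Agent.Results.MP_100021_an.Proof
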